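import Pool.Agent.W355.HW.Fin

/-!
# Jensen polynomials of the Hasse-Weil L-functions of the powers of a CM elliptic curve

Let `E : y² = x³ - x` and `X = E^g`, projective and smooth over `ℤ[1/2]`, and `i` odd, `0 < i < 2g`.
For an odd prime `p` let `α_p, β_p` be the roots of `T² - a_p T + p`,
`a_p = p - #{(x, y) mod p : y² = x³ - x}`.  By the Künneth formula
`P_i(X(p), T) = ∏_{a+b=i} (1 - α_p^a β_p^b T)^{C(g,a) C(g,b)}`, and the Hasse-Weil L-function is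
`L(i; X, s) = ∏_{p ≠ 2} P_i(X(p), p^{-s})⁻¹` (for `i` odd the inertia invariants at `2` vanish, so there
is no factor at `2`).  The completed function is `Λ(s) = A^{s/2} Γ_i(s) L(i; X, s)` with
`Γ_i(s) = ∏_{p<q} Γ_ℂ(s - p)^{h^{p,q}}`, `h^{p,q} = C(g,p) C(g,q)`, up to the constant `A^{-i/4}`; it is
entire, real on the real axis, and `Λ(i + 1 - s) = ± Λ(s)` (Deuring, Hecke).

We prove, without any hypothesis, that there is a constant `C = C(g, i)` such that the Jensen polynomial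
`J^{d,n}` of the Taylor coefficients of `F(z) = Λ((i+1)/2 + z)` has degree `d` and only real negative zeros
for ALL degrees `d` and ALL shifts `n ≥ C log (d + 1)`, and that the generalized Riemann hypothesis for
`Λ(i; X, s)` (part (d) of the problem for this `X` and `i`) holds if and only if the remaining `J^{d,n}`,
`n < C log (d + 1)`, have only real nonpositive zeros (or vanish).

Proof.  `L(i; X, s) = ∏_{l ≤ m} L(s - i/2, ψ^(2l+1))^{C(g,m-l) C(g,m+1+l)}`, `i = 2m+1`, with the Hecke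
character `ψ` of `ℚ(i)` modulo `2+2i` (`Pool.Agent.W354.HW`, helper354).  `F` is the Fourier-Laplace
transform of a theta kernel, an iterated multiplicative convolution of Gaussians
(`Pool.Agent.W355.LJ`), whose size and analytic continuation are controlled well enough to apply the
starting modules `Pool.Agent.H471R3.GJ` (helper471 and many co-authors): the zeros of the derivatives of
`F` are real in a disc of exponential size.
-/

set_option autoImplicit false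

namespace Pool.Agent.Results.MP_7193be_nt.JensenPowersCM

open Complex Polynomial
open scoped ComplexConjugate

/-- `a_p`: the prime `p` minus the number of the pairs `(x, y)` modulo `p` with `y² = x³ - x` -/
noncomputable def a (p : ℕ) : ℤ :=
  (p : ℤ) - (((Finset.range p ×ˢ Finset.range p).filter
    (fun xy : ℕ × ℕ => (p : ℤ) ∣ (xy.2 : ℤ) ^ 2 - ((xy.1 : ℤ) ^ 3 - (xy.1 : ℤ)))).card : ℤ)

/-- `α p`, `β p` are the roots of `T² - a_p T + p` for every prime `p ≠ 2` -/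
def FrobeniusRoots (α β : ℕ → ℂ) : Prop :=
  ∀ p : ℕ, p.Prime → p ≠ 2 → α p + β p = (a p : ℂ) ∧ α p * β p = p

/-- `P_i(X(p), p^{-s})` for `X = E^g`: the product of `(1 - α^j β^(i-j) p^(-s))` over `0 ≤ j ≤ i`
with the multiplicities `C(g, j) C(g, i-j)` -/
noncomputable def P (g i : ℕ) (α β : ℂ) (p : ℕ) (s : ℂ) : ℂ :=
  ∏ j ∈ Finset.range (i + 1),
    (1 - α ^ j * β ^ (i - j) * (p : ℂ) ^ (-s)) ^ (g.choose j * g.choose (i - j))

/-- `L` is the continuation of `L(i; E^g, s) = ∏_{p ≠ 2} P_i(X(p), p^{-s})⁻¹` to an entire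
function -/
def IsHasseWeil (g i : ℕ) (L : ℂ → ℂ) : Prop :=
  Differentiable ℂ L ∧ ∀ α β : ℕ → ℂ, FrobeniusRoots α β → ∀ s : ℂ, 1 + (i : ℝ) / 2 < s.re →
    HasProd (fun p : {p : ℕ // p.Prime ∧ p ≠ 2} => (P g i (α p) (β p) p s)⁻¹) (L s)

/-- the conductor `A = 32^N`, `N = ∑_{p < q, p + q = i} h^{p,q}`, `h^{p,q} = C(g, p) C(g, q)` -/
noncomputable def A (g i : ℕ) : ℝ :=
  32 ^ (∑ p ∈ Finset.range ((i + 1) / 2), g.choose p * g.choose (i - p))

/-- the Gamma factor `Γ_i(s) = ∏_{p < q, p + q = i} Γ_ℂ(s - p)^{h^{p,q}}`, `h^{p,q} = C(g, p) C(g, q)` -/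
noncomputable def gammaFactor (g i : ℕ) (s : ℂ) : ℂ :=
  ∏ p ∈ Finset.range ((i + 1) / 2), Gammaℂ (s - p) ^ (g.choose p * g.choose (i - p))

/-- `Λ` is entire and `Λ(s) = A^((s - i/2)/2) Γ_i(s) L(s)` for `Re s > (i - 1)/2` -/
def IsCompleted (g i : ℕ) (L Λ : ℂ → ℂ) : Prop :=
  Differentiable ℂ Λ ∧ ∀ s : ℂ, ((i : ℝ) - 1) / 2 < s.re →
    Λ s = (A g i : ℂ) ^ ((s - (i : ℂ) / 2) / 2) * gammaFactor g i s * L s

/-- `F(z) = Λ((i+1)/2 + z)` -/
noncomputable def F (i : ℕ) (Λ : ℂ → ℂ) (z : ℂ) : ℂ := Λ (((i : ℂ) + 1) / 2 + z)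

/-- The coefficients `γ(k) = k! / (2k+r)! * F^(2k+r)(0)`, so that `F(z) = z^r ∑ γ(k) z^(2k) / k!` if `F` is
even and `r = 0` or `F` is odd and `r = 1`. -/
noncomputable def gamma (F : ℂ → ℂ) (r k : ℕ) : ℝ :=
  (k.factorial : ℝ) / ((2 * k + r).factorial : ℝ) * (iteratedDeriv (2 * k + r) F 0).re

/-- The Jensen polynomial `J^{d,n}(X) = ∑_{j ≤ d} binom(d,j) γ(n+j) X^j` of degree `d` and shift `n`. -/
noncomputable def jensen (F : ℂ → ℂ) (r d n : ℕ) : ℝ[X] :=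
  ∑ j ∈ Finset.range (d + 1), C ((d.choose j : ℝ) * gamma F r (n + j)) * X ^ j

/-- **The theorem.** -/
theorem result (g i : ℕ) (hi : Odd i) (hg : i < 2 * g) :
    ∃ L Λ : ℂ → ℂ, IsHasseWeil g i L ∧ IsCompleted g i L Λ ∧
      (∀ s : ℂ, Λ (conj s) = conj (Λ s)) ∧
      ∃ r : ℕ, r ≤ 1 ∧ (∀ s : ℂ, Λ (i + 1 - s) = (-1) ^ r * Λ s) ∧
        ∃ C : ℝ, 0 < C ∧
          (∀ d n : ℕ, 1 ≤ d → C * Real.log (d + 1) ≤ n → (jensen (F i Λ) r d n).natDegree = d ∧
            ∀ z : ℂ, aeval z (jensen (F i Λ) r d n) = 0 → z.im = 0 ∧ z.re < 0) ∧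
          ((∀ s : ℂ, Λ s = 0 → s.re = ((i : ℝ) + 1) / 2) ↔
            ∀ d n : ℕ, 1 ≤ d → (n : ℝ) < C * Real.log (d + 1) → jensen (F i Λ) r d n = 0 ∨
              ∀ z : ℂ, aeval z (jensen (F i Λ) r d n) = 0 → z.im = 0 ∧ z.re ≤ 0) := by
  obtain ⟨m, rfl⟩ := hi
  obtain ⟨Λ, r, hr, h1, h2, h3, h4, ⟨C, hC, h6, h7⟩, -⟩ := Pool.Agent.W355.HW.main g m (by omega)
  exact ⟨fun s => Pool.Agent.W355.HW.LL0 g m (s - ((2 * m + 1 : ℕ) : ℂ) / 2), Λ,
    ⟨(Pool.Agent.W355.HW.LL0_diff g m).comp (differentiable_id.sub_const _),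
      fun α β hαβ s hs => Pool.Agent.W355.HW.LL0_prod g m α β hαβ s hs⟩, ⟨h1, h2⟩, h3, r, hr, h4,
    C, hC, h6, h7⟩

end Pool.Agent.Results.MP_7193be_nt.JensenPowersCM
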