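import Pool.Agent.W165.CE.EulerM

/-!
# The zeros of `L(1; X_0(N) ⊗ ℤ[ζ_q], s)` on the line `Re s = 1`, for all modular curves

`f_j` are newforms of weight 2 and levels `M_j ∣ N` (with repetitions).  If every newform `f` of level
`M ∣ N` occurs `σ₀(N/M)` times, then by Eichler-Shimura the polynomials below are the `P_1` of the
modular curve `X_0(N)`; other choices give all quotients of `J_0(N)` and all products of elliptic
curves over `ℚ`.  For every cyclotomic field `K = ℚ(ζ_q)`, `q` prime to `N`, the `L`-function of `H¹` of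
`X ⊗ K` is entire, and in the average over `X < q ≤ Y` at least 67.25% of its zeros with
`1/2 < Re s < 3/2`, `T < Im s ≤ 2T` lie on `Re s = 1`.

The theorem on the twists of a newform is the joint work of helper388 and others (module
`Pool.Agent.W388.TW.Final`); the arithmetic of the cyclotomic fields is that of the starting modules
`Pool.Agent.H82R3.EK` (helper165).
-/

set_option autoImplicit false

open Complex NumberField IsDedekindDomain UpperHalfPlane MatrixGroups CongruenceSubgroup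

namespace Pool.Agent.Results.MP_7193be_nt.ModularCurves6725

/-- The `n`-th Fourier coefficient of `f`. -/
noncomputable def coef {M : ℕ} (f : CuspForm (Gamma0 M : Subgroup (GL (Fin 2) ℝ)) 2) (n : ℕ) : ℂ :=
  (qExpansion 1 f).coeff n

/-- `f ∈ S_2(Γ₀(M))` is a newform: its Fourier coefficients `c(n)` are real with `c(1) = 1`, they
satisfy the Hecke relations `c(mn) = c(m) c(n)` for coprime `m`, `n` and
`c(p^(j+2)) = c(p) c(p^(j+1)) - p c(p^j)` (without the last term if `p ∣ M`), and `f` is an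
eigenfunction of the Fricke involution: `f(-1/(Mτ)) = -w M τ² f(τ)` with `w = ±1`. -/
structure IsNewform (M : ℕ) (f : CuspForm (Gamma0 M : Subgroup (GL (Fin 2) ℝ)) 2) : Prop where
  one : coef f 1 = 1
  real : ∀ n, (coef f n).im = 0
  mul : ∀ m n : ℕ, Nat.Coprime m n → coef f (m * n) = coef f m * coef f n
  pow : ∀ p j : ℕ, p.Prime → coef f (p ^ (j + 2)) = coef f p * coef f (p ^ (j + 1)) -
      (if p ∣ M then 0 else (p : ℂ) * coef f (p ^ j))
  fricke : ∃ w : ℝ, (w = 1 ∨ w = -1) ∧ ∀ τ τ' : ℍ, (τ' : ℂ) * ((M : ℂ) * (τ : ℂ)) = -1 →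
    f τ' = -(w : ℂ) * (M : ℂ) * (τ : ℂ) ^ 2 * f τ

/-- `pw t u n = α ^ n + β ^ n`, where `α`, `β` are the roots of `X² - t X + u`. -/
noncomputable def pw (t u : ℂ) : ℕ → ℂ
  | 0 => 2
  | 1 => t
  | n + 2 => t * pw t u (n + 1) - u * pw t u n

open Classical in
/-- The polynomial `P_1` of the reduction at the prime `v` of `K`, at `(Nv)^(-s)`: if `Nv = p ^ d` with `p`
prime, it is the product over `j` of `1 - (α^d + β^d) (Nv)^(-s) + (Nv)^(1-2s)` for `p ∤ M_j`, where `α`,
`β` are the roots of `X² - c_j(p) X + p`, and of `1 - c_j(p)^d (Nv)^(-s)` for `p ∣ M_j`. -/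
noncomputable def P1 {ι : Type} [Fintype ι] (M : ι → ℕ)
    (f : (j : ι) → CuspForm (Gamma0 (M j) : Subgroup (GL (Fin 2) ℝ)) 2)
    {K : Type} [Field K] [NumberField K] (s : ℂ) (v : HeightOneSpectrum (𝓞 K)) : ℂ :=
  ∏ j : ι, (1 - pw (coef (f j) (Ideal.absNorm v.asIdeal).minFac)
        (if (Ideal.absNorm v.asIdeal).minFac ∣ M j then 0 else ((Ideal.absNorm v.asIdeal).minFac : ℂ))
        ((Ideal.absNorm v.asIdeal).factorization (Ideal.absNorm v.asIdeal).minFac)
        * ((Ideal.absNorm v.asIdeal : ℕ) : ℂ) ^ (-s)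
    + (if (Ideal.absNorm v.asIdeal).minFac ∣ M j then (0 : ℂ) else
        ((Ideal.absNorm v.asIdeal : ℕ) : ℂ) ^ (1 - 2 * s)))

/-- The zeros of `F` with `1/2 < Re s < 3/2` and `T < Im s ≤ 2T`. -/
def zeros (F : ℂ → ℂ) (T : ℝ) : Set ℂ :=
  {s : ℂ | 1 / 2 < s.re ∧ s.re < 3 / 2 ∧ T < s.im ∧ s.im ≤ 2 * T ∧ F s = 0}

/-- The number of these zeros, counted with multiplicity. -/
noncomputable def Nz (F : ℂ → ℂ) (T : ℝ) : ℕ := ∑ᶠ s ∈ zeros F T, analyticOrderNatAt F s

/-- The number of those of them that lie on the line `Re s = 1`, counted with multiplicity. -/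
noncomputable def N₀ (F : ℂ → ℂ) (T : ℝ) : ℕ :=
  ∑ᶠ s ∈ {s : ℂ | s ∈ zeros F T ∧ s.re = 1}, analyticOrderNatAt F s

/-! ### Translation from the analytic normalisation -/

theorem order_shift (L : ℂ → ℂ) (s : ℂ) :
    analyticOrderNatAt (fun z => L (z - 1 / 2)) (s + 1 / 2) = analyticOrderNatAt L s := by
  have hg : AnalyticAt ℂ (fun z : ℂ => z - 1 / 2) (s + 1 / 2) := by fun_prop
  have hd : deriv (fun z : ℂ => z - 1 / 2) (s + 1 / 2) ≠ 0 := by
    simp
  have h := analyticOrderAt_comp_of_deriv_ne_zero (f := L) hg hd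
  unfold analyticOrderNatAt
  have h2 : (fun z : ℂ => L (z - 1 / 2)) = L ∘ (fun z : ℂ => z - 1 / 2) := rfl
  rw [h2, h]
  norm_num

theorem mem_shift (L : ℂ → ℂ) (T : ℝ) (s : ℂ) :
    s + 1 / 2 ∈ zeros (fun z => L (z - 1 / 2)) T ↔ s ∈ H370.zset L T (2 * T) := by
  have h1 : (s + 1 / 2 : ℂ).re = s.re + 1 / 2 := by simp
  have h2 : (s + 1 / 2 : ℂ).im = s.im := by simp
  have h3 : s + 1 / 2 - 1 / 2 = s := by ring
  constructor
  · rintro ⟨a, b, c, d, e⟩
    rw [h1] at a b
    rw [h2] at c d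
    simp only [h3] at e
    exact ⟨by linarith, by linarith, c, d, e⟩
  · rintro ⟨a, b, c, d, e⟩
    refine ⟨by rw [h1]; linarith, by rw [h1]; linarith, by rw [h2]; exact c,
      by rw [h2]; exact d, ?_⟩
    simp only [h3]
    exact e

theorem zeros_shift (L : ℂ → ℂ) (T : ℝ) :
    zeros (fun z => L (z - 1 / 2)) T = (fun s : ℂ => s + 1 / 2) '' H370.zset L T (2 * T) := by
  ext s
  constructor
  · intro hs
    refine ⟨s - 1 / 2, ?_, by ring⟩
    rw [← mem_shift]
    convert hs using 1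
    ring
  · rintro ⟨t, ht, rfl⟩
    exact (mem_shift L T t).mpr ht

theorem inj_shift : Function.Injective (fun s : ℂ => s + 1 / 2) := fun a b h => by
  simpa using h

theorem Nz_shift (L : ℂ → ℂ) (T : ℝ) :
    Nz (fun z => L (z - 1 / 2)) T = H370.NN L T (2 * T) := by
  unfold Nz H370.NN
  rw [zeros_shift, finsum_mem_image (inj_shift.injOn)]
  refine finsum_congr fun s => finsum_congr fun _ => ?_
  exact order_shift L s

open Pool.Agent.H82R3.EK in
theorem N₀_shift (L : ℂ → ℂ) (T : ℝ) :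
    N₀ (fun z => L (z - 1 / 2)) T = cnt L (line T (2 * T)) := by
  unfold N₀ cnt
  have h : {s : ℂ | s ∈ zeros (fun z => L (z - 1 / 2)) T ∧ s.re = 1} =
      (fun s : ℂ => s + 1 / 2) '' {s : ℂ | s ∈ line T (2 * T) ∧ L s = 0} := by
    ext s
    constructor
    · rintro ⟨h1, h2⟩
      rw [zeros_shift] at h1
      obtain ⟨t, ⟨_, _, h3, h4, h5⟩, rfl⟩ := h1
      refine ⟨t, ⟨⟨?_, h3, h4⟩, h5⟩, rfl⟩
      have h6 : (t + 1 / 2 : ℂ).re = t.re + 1 / 2 := by simp
      rw [h6] at h2
      linarith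
    · rintro ⟨t, ⟨⟨h1, h3, h4⟩, h5⟩, rfl⟩
      refine ⟨(mem_shift L T t).mpr ⟨by rw [h1]; norm_num, by rw [h1]; norm_num, h3, h4, h5⟩, ?_⟩
      have h6 : (t + 1 / 2 : ℂ).re = t.re + 1 / 2 := by simp
      rw [h6, h1]
      norm_num
  rw [h, finsum_mem_image (inj_shift.injOn)]
  refine finsum_congr fun s => finsum_congr fun _ => ?_
  exact order_shift L s

theorem lamf_eq {N : ℕ} (f : CuspForm (Gamma0 N : Subgroup (GL (Fin 2) ℝ)) 2)
    (hr : ∀ n, (coef f n).im = 0) (p : ℕ) (hp : p.Prime) (s : ℂ) :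
    (W388.lamf f p : ℂ) * (p : ℂ) ^ (-(s - 1 / 2)) = coef f p * (p : ℂ) ^ (-s) := by
  have hp0 : (0 : ℝ) < p := by exact_mod_cast hp.pos
  have hpc : (p : ℂ) ≠ 0 := by exact_mod_cast hp.ne_zero
  have hc : coef f p = ((coef f p).re : ℂ) := by
    apply Complex.ext
    · simp
    · simp [hr p]
  unfold W388.lamf
  rw [hc]
  unfold coef
  rw [show -(s - 1 / 2) = -s + (1 / 2 : ℂ) by ring, Complex.cpow_add _ _ hpc]
  push_cast
  rw [Complex.ofReal_cpow hp0.le]
  have e : ((((2 : ℝ) - 1) / 2 : ℝ) : ℂ) = (1 / 2 : ℂ) := by push_cast; norm_num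
  rw [e]
  have hne : (p : ℂ) ^ (1 / 2 : ℂ) ≠ 0 := by
    rw [Ne, Complex.cpow_eq_zero_iff]
    exact fun h => hpc h.1
  rw [Complex.ofReal_natCast]
  field_simp

theorem eul_shift {N : ℕ} (f : CuspForm (Gamma0 N : Subgroup (GL (Fin 2) ℝ)) 2)
    (hr : ∀ n, (coef f n).im = 0) (q : ℕ)
    (χ : DirichletCharacter ℂ q) (s : ℂ) (p : ℕ) (hp : p.Prime) :
    W165.CE.eul N (coef f) q χ s p =
      (1 - χ (p : ZMod q) * (W388.lamf f p : ℂ) * (p : ℂ) ^ (-(s - 1 / 2)) +
      (if p ∣ N then 0 else χ (p : ZMod q) ^ 2 * (p : ℂ) ^ (-2 * (s - 1 / 2))))⁻¹ := by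
  unfold W165.CE.eul
  rw [mul_assoc (χ (p : ZMod q)) (W388.lamf f p : ℂ), lamf_eq f hr p hp s,
    mul_assoc (χ (p : ZMod q)) (coef f p), show (-2 * (s - 1 / 2) : ℂ) = 1 - 2 * s by ring,
    Pool.Agent.H82R3.EK.prime_cpow p hp.ne_zero s]
  split_ifs with h
  · rw [zero_mul, mul_zero]
  · rfl

theorem pw_eq_lib (t u : ℂ) : ∀ n : ℕ, pw t u n = W165.CE.pw t u n
  | 0 => rfl
  | 1 => rfl
  | n + 2 => by
    rw [pw, W165.CE.pw, pw_eq_lib t u (n + 1), pw_eq_lib t u n]

theorem P1_eq_lib {ι : Type} [Fintype ι] (M : ι → ℕ)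
    (f : (j : ι) → CuspForm (Gamma0 (M j) : Subgroup (GL (Fin 2) ℝ)) 2)
    {K : Type} [Field K] [NumberField K] (s : ℂ) (v : HeightOneSpectrum (𝓞 K)) :
    (P1 M f s v)⁻¹ = ∏ j : ι, W165.CE.facN (M j) (coef (f j)) s v := by
  unfold P1 W165.CE.facN
  rw [← Finset.prod_inv_distrib]
  refine Finset.prod_congr rfl fun j _ => ?_
  rw [pw_eq_lib]

theorem isNewf {M : ℕ} [NeZero M] {f : CuspForm (Gamma0 M : Subgroup (GL (Fin 2) ℝ)) 2}
    (hf : IsNewform M f) : ∃ w : ℝ, W388.IsNewf M 2 f w := by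
  obtain ⟨w, hw, hfr⟩ := hf.fricke
  have hN0 : (0 : ℝ) ≤ (M : ℝ) := Nat.cast_nonneg M
  have hsq : ((Real.sqrt M : ℝ) : ℂ) ^ 2 = (M : ℂ) := by
    have h1 : (Real.sqrt M) ^ 2 = (M : ℝ) := Real.sq_sqrt hN0
    exact_mod_cast congrArg (fun x : ℝ => (x : ℂ)) h1
  refine ⟨w, hf.one, hf.real, hf.mul, ?_, hw, ?_⟩
  · intro p j hp
    have h1 := hf.pow p j hp
    unfold coef at h1
    rw [h1]
    norm_num
  · intro τ τ' h
    rw [hfr τ τ' h]
    congr 1
    have hI : Complex.I ^ 2 = -1 := Complex.I_sq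
    have : (((Real.sqrt M : ℝ) : ℂ) * (τ : ℂ) / Complex.I) ^ (2 : ℤ) = -((M : ℂ) * (τ : ℂ) ^ 2) := by
      rw [zpow_ofNat, div_pow, mul_pow, hsq, hI]
      ring
    rw [this]
    ring

open Pool.Agent.H82R3.EK in
/-- **Main theorem.** Let `f_j` (`j` in a nonempty finite set) be newforms of weight 2 and levels
`M_j ∣ N`. There are functions `L q` such that for every `q` prime to `N` and every cyclotomic field
`K = ℚ(ζ_q)`, `L q` is entire and is for `Re s > 3/2` the Euler product over all primes `v` of `K` of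
`P_1(Nv^(-s))⁻¹`; and there are constants `κ`, `η`, `X₀` such that for `X ≥ X₀`,
`κ X ≤ Y ≤ X ^ (1 + η)` and `(log X)² ≤ T ≤ X ^ η`, with the weight `1/q²`, at least 67.25% of the
zeros in `1/2 < Re s < 3/2`, `T < Im s ≤ 2T` of all `L q`, `X < q ≤ Y`, `(q, N) = 1` (counted with
multiplicity) lie on the line `Re s = 1`; the weighted number of zeros is at least `T` times the
number of the `f_j`. -/
theorem result {ι : Type} [Fintype ι] [Nonempty ι] (N : ℕ) (hN : 1 ≤ N) (M : ι → ℕ)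
    [∀ j, NeZero (M j)] (hM : ∀ j, M j ∣ N)
    (f : (j : ι) → CuspForm (Gamma0 (M j) : Subgroup (GL (Fin 2) ℝ)) 2)
    (hf : ∀ j, IsNewform (M j) (f j)) :
    ∃ L : ℕ → ℂ → ℂ,
      (∀ q : ℕ, 1 ≤ q → Nat.Coprime q N → Differentiable ℂ (L q) ∧
        ∀ (K : Type) [Field K] [NumberField K] [IsCyclotomicExtension {q} ℚ K] (s : ℂ), 3 / 2 < s.re →
          HasProd (fun v : HeightOneSpectrum (𝓞 K) => (P1 M f s v)⁻¹) (L q s)) ∧
      ∃ κ η X₀ : ℝ, 1 ≤ κ ∧ 0 < η ∧ 1 ≤ X₀ ∧
        ∀ (X Y : ℕ) (T : ℝ), X₀ ≤ X → κ * X ≤ Y → (Y : ℝ) ≤ (X : ℝ) ^ (1 + η) →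
        (Real.log X) ^ 2 ≤ T → T ≤ (X : ℝ) ^ η →
        Fintype.card ι * T ≤ ∑ q ∈ (Finset.Ioc X Y).filter (fun q => Nat.Coprime q N),
            (1 / (q : ℝ) ^ 2) * (Nz (L q) T : ℝ) ∧
        0.6725 * ∑ q ∈ (Finset.Ioc X Y).filter (fun q => Nat.Coprime q N),
            (1 / (q : ℝ) ^ 2) * (Nz (L q) T : ℝ) ≤
          ∑ q ∈ (Finset.Ioc X Y).filter (fun q => Nat.Coprime q N),
            (1 / (q : ℝ) ^ 2) * (N₀ (L q) T : ℝ) := by
  classical
  have hf' : ∀ j, ∃ w : ℝ, W388.IsNewf (M j) 2 (f j) w := fun j => isNewf (hf j)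
  choose w hw using hf'
  have hav := fun j => W165.CE.avg_mainM (by norm_num) (hw j)
  choose L A hA hL hW using hav
  have hW' := fun j => hW j N (by omega) (hM j)
  choose κ η X0 hκ hη hX0 h using hW'
  obtain ⟨j0⟩ := (inferInstance : Nonempty ι)
  have hκs : ∀ j, κ j ≤ ∑ i, κ i := fun j =>
    Finset.single_le_sum (f := κ) (fun i _ => le_trans zero_le_one (hκ i)) (Finset.mem_univ j)
  have hXs : ∀ j, X0 j ≤ ∑ i, X0 i := fun j =>
    Finset.single_le_sum (f := X0) (fun i _ => le_trans zero_le_one (hX0 i)) (Finset.mem_univ j)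
  have hηs : ∀ j, (∑ i, (η i)⁻¹)⁻¹ ≤ η j := fun j => by
    have h1 : (η j)⁻¹ ≤ ∑ i, (η i)⁻¹ :=
      Finset.single_le_sum (f := fun i => (η i)⁻¹) (fun i _ => (inv_pos.2 (hη i)).le)
        (Finset.mem_univ j)
    have h2 := inv_anti₀ (inv_pos.2 (hη j)) h1
    rwa [inv_inv] at h2
  have hη0 : 0 < (∑ i, (η i)⁻¹)⁻¹ := by
    refine inv_pos.2 (Finset.sum_pos (fun i _ => inv_pos.2 (hη i)) ⟨j0, Finset.mem_univ _⟩)
  refine ⟨fun q s => ∏ j, ∏ᶠ χ : DirichletCharacter ℂ q,
      L j χ.conductor χ.primitiveCharacter (s - 1 / 2), ?_,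
    ∑ i, κ i, (∑ i, (η i)⁻¹)⁻¹, max (∑ i, X0 i) 3, le_trans (hκ j0) (hκs j0), hη0,
    le_trans (le_trans (hX0 j0) (hXs j0)) (le_max_left _ _), ?_⟩
  · intro q hq hqM
    have : NeZero q := ⟨by omega⟩
    simp_rw [finprod_eq_prod_of_fintype]
    refine ⟨?_, ?_⟩
    · have h1 : ∀ j ∈ (Finset.univ : Finset ι), Differentiable ℂ (fun s : ℂ =>
          ∏ χ : DirichletCharacter ℂ q, L j χ.conductor χ.primitiveCharacter (s - 1 / 2)) := by
        intro j _
        have h1 : ∀ χ ∈ (Finset.univ : Finset (DirichletCharacter ℂ q)),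
            Differentiable ℂ (fun s : ℂ => L j χ.conductor χ.primitiveCharacter (s - 1 / 2)) := by
          intro χ _
          have h2 := (hL j χ.conductor χ.primitiveCharacter
            (Nat.one_le_iff_ne_zero.2 χ.conductor_ne_zero)
            (Nat.Coprime.coprime_dvd_right (hM j)
              (Nat.Coprime.coprime_dvd_left χ.conductor_dvd_level hqM))
            χ.primitiveCharacter_isPrimitive).1
          exact h2.comp (by fun_prop)
        exact Differentiable.fun_finsetProd h1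
      exact Differentiable.fun_finsetProd h1
    · intro K _ _ _ s hs
      have hre : 1 < (s - 1 / 2 : ℂ).re := by
        have : (s - 1 / 2 : ℂ).re = s.re - 1 / 2 := by simp
        rw [this]; linarith
      have h2 : HasProd (fun v : HeightOneSpectrum (𝓞 K) =>
          ∏ j : ι, W165.CE.facN (M j) (coef (f j)) s v)
          (∏ j : ι, ∏ χ : DirichletCharacter ℂ q,
            L j χ.conductor χ.primitiveCharacter (s - 1 / 2)) := by
        apply hasProd_prod
        intro j _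
        refine W165.CE.hasProd_eulerN (hM j) (fun q χ s => L j q χ (s - 1 / 2)) (by
          intro q χ h1 h2 h3 s hs
          have h4 := (hL j q χ h1 h2 h3).2.1 (s - 1 / 2) (by
            have : (s - 1 / 2 : ℂ).re = s.re - 1 / 2 := by simp
            rw [this]; linarith)
          refine (congrArg (fun g => HasProd g (L j q χ (s - 1 / 2))) (funext fun p => ?_)).mpr h4
          exact eul_shift (f j) (hf j).real q χ s p p.2) q hqM K s hs ?_
        have h5 := (W165.CE.newf_summable (by norm_num) (hw j) (s - 1 / 2) hre).comp_injective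
          (i := fun p : Nat.Primes => (p : ℕ)) (fun a b h => Subtype.ext h)
        refine h5.congr fun p => ?_
        show ‖(W388.lamf (f j) p : ℂ) * ((p : ℕ) : ℂ) ^ (-(s - 1 / 2))‖ = _
        rw [lamf_eq (f j) (hf j).real p p.2 s]
      refine (congrArg (fun g => HasProd g _) (funext fun v => ?_)).mpr h2
      exact P1_eq_lib M f s v
  · intro X Y T a1 a2 a3 a4 a5
    have hX3 : (3 : ℝ) ≤ X := le_trans (le_max_right _ _) a1
    have hX0' : (0 : ℝ) < X := by linarith
    have hb : ∀ j, T ≤ ∑ q ∈ (Finset.Ioc X Y).filter (fun q => Nat.Coprime q N),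
            (1 / (q : ℝ) ^ 2) * SS (fun q χ => (H370.NN (L j q χ) T (2 * T) : ℝ)) q ∧
        0.6725 * ∑ q ∈ (Finset.Ioc X Y).filter (fun q => Nat.Coprime q N),
            (1 / (q : ℝ) ^ 2) * SS (fun q χ => (H370.NN (L j q χ) T (2 * T) : ℝ)) q ≤
          ∑ q ∈ (Finset.Ioc X Y).filter (fun q => Nat.Coprime q N),
            (1 / (q : ℝ) ^ 2) * SS (fun q χ => (H370.Ns (L j q χ) T (2 * T) : ℝ)) q := by
      intro j
      refine h j X Y T (le_trans (hXs j) (le_trans (le_max_left _ _) a1)) ?_ ?_ a4 ?_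
      · exact le_trans (mul_le_mul_of_nonneg_right (hκs j) hX0'.le) a2
      · refine a3.trans (Real.rpow_le_rpow_of_exponent_le (by linarith) ?_)
        linarith [hηs j]
      · exact a5.trans (Real.rpow_le_rpow_of_exponent_le (by linarith) (hηs j))
    have hT1 : 1 ≤ T := by
      refine le_trans ?_ a4
      have h1 : 1 ≤ Real.log X := by
        rw [Real.le_log_iff_exp_le (by linarith)]
        exact le_trans (by have := Real.exp_one_lt_d9; linarith) hX3
      nlinarith
    -- for a single `q`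
    have key : ∀ q ∈ (Finset.Ioc X Y).filter (fun q => Nat.Coprime q N),
        ((Nz (fun s => ∏ j, ∏ᶠ χ : DirichletCharacter ℂ q,
            L j χ.conductor χ.primitiveCharacter (s - 1 / 2)) T : ℕ) : ℝ) =
          ∑ j, SS (fun q χ => (H370.NN (L j q χ) T (2 * T) : ℝ)) q ∧
        ∑ j, SS (fun q χ => (H370.Ns (L j q χ) T (2 * T) : ℝ)) q ≤
          ((N₀ (fun s => ∏ j, ∏ᶠ χ : DirichletCharacter ℂ q,
            L j χ.conductor χ.primitiveCharacter (s - 1 / 2)) T : ℕ) : ℝ) := by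
      intro q hq
      rw [Finset.mem_filter, Finset.mem_Ioc] at hq
      obtain ⟨⟨hq1, hq2⟩, hqM⟩ := hq
      have : NeZero q := ⟨by omega⟩
      have hG : ∀ (x : ι × DirichletCharacter ℂ q),
          Differentiable ℂ (L x.1 x.2.conductor x.2.primitiveCharacter) ∧
          ∃ a : ℕ → ℂ, W388.GoodE 2 (A x.1) (x.2.conductor : ℝ)
            (L x.1 x.2.conductor x.2.primitiveCharacter) a := by
        rintro ⟨j, χ⟩
        have h2 := hL j χ.conductor χ.primitiveCharacter
          (Nat.one_le_iff_ne_zero.2 χ.conductor_ne_zero)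
          (Nat.Coprime.coprime_dvd_right (hM j)
            (Nat.Coprime.coprime_dvd_left χ.conductor_dvd_level hqM))
          χ.primitiveCharacter_isPrimitive
        exact ⟨h2.1, h2.2.2⟩
      have hQ : ∀ χ : DirichletCharacter ℂ q, (1 : ℝ) ≤ (χ.conductor : ℝ) := by
        intro χ
        have : 1 ≤ χ.conductor := Nat.pos_of_ne_zero χ.conductor_ne_zero
        exact_mod_cast this
      have hfin : ∀ x : ι × DirichletCharacter ℂ q,
          (H370.zset (L x.1 x.2.conductor x.2.primitiveCharacter) T (2 * T)).Finite := by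
        intro x
        obtain ⟨_, a, ha⟩ := hG x
        exact W388.zset_finite_D (hA x.1) (hQ x.2) ha T (2 * T) hT1
      have han : ∀ (x : ι × DirichletCharacter ℂ q) (s : ℂ),
          AnalyticAt ℂ (L x.1 x.2.conductor x.2.primitiveCharacter) s :=
        fun x s => (hG x).1.analyticAt s
      have htop : ∀ (x : ι × DirichletCharacter ℂ q) (s : ℂ),
          analyticOrderAt (L x.1 x.2.conductor x.2.primitiveCharacter) s ≠ ⊤ := by
        intro x s
        obtain ⟨_, a, ha⟩ := hG x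
        have h1 : L x.1 x.2.conductor x.2.primitiveCharacter (⟨2, 1⟩ : ℂ) ≠ 0 :=
          ha.nzr _ (by norm_num) (by norm_num)
        exact H370.Loc.order_ne_top (K := Set.univ) isPreconnected_univ (fun z _ => han x z)
          (Set.mem_univ _) h1 (Set.mem_univ s)
      have e1 : (fun s : ℂ => ∏ j, ∏ᶠ χ : DirichletCharacter ℂ q,
            L j χ.conductor χ.primitiveCharacter (s - 1 / 2)) =
          fun s : ℂ => (fun z : ℂ => ∏ x : ι × DirichletCharacter ℂ q,
            L x.1 x.2.conductor x.2.primitiveCharacter z) (s - 1 / 2) := by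
        funext s
        simp only [finprod_eq_prod_of_fintype]
        rw [Fintype.prod_prod_type]
      rw [e1, Nz_shift (fun z : ℂ => ∏ x : ι × DirichletCharacter ℂ q,
            L x.1 x.2.conductor x.2.primitiveCharacter z) T,
        N₀_shift (fun z : ℂ => ∏ x : ι × DirichletCharacter ℂ q,
            L x.1 x.2.conductor x.2.primitiveCharacter z) T, NN_eq]
      unfold SS
      simp only [finsum_eq_sum_of_fintype]
      rw [cnt_prod Finset.univ (fun x : ι × DirichletCharacter ℂ q =>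
          L x.1 x.2.conductor x.2.primitiveCharacter)
        (W := strip T (2 * T)) (fun x _ s _ => han x s) (fun x _ s _ => htop x s) (fun x _ => ?_),
        cnt_prod Finset.univ (fun x : ι × DirichletCharacter ℂ q =>
          L x.1 x.2.conductor x.2.primitiveCharacter)
        (W := line T (2 * T)) (fun x _ s _ => han x s) (fun x _ s _ => htop x s) (fun x _ => ?_)]
      · refine ⟨?_, ?_⟩
        · push_cast
          rw [Fintype.sum_prod_type]
          exact Finset.sum_congr rfl fun j _ => Finset.sum_congr rfl fun χ _ => by rw [NN_eq]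
        · push_cast
          rw [Fintype.sum_prod_type]
          exact Finset.sum_le_sum fun j _ => Finset.sum_le_sum fun χ _ => by
            exact_mod_cast Ns_le _ T (2 * T) (hfin (j, χ))
      · refine (hfin x).subset ?_
        rintro s ⟨⟨h1, h2, h3⟩, h4⟩
        exact ⟨by rw [h1]; norm_num, by rw [h1]; norm_num, h2, h3, h4⟩
      · refine (hfin x).subset ?_
        rintro s ⟨⟨h1, h2, h3, h4⟩, h5⟩
        exact ⟨h1, h2, h3, h4, h5⟩
    have k1 : ∑ q ∈ (Finset.Ioc X Y).filter (fun q => Nat.Coprime q N),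
        (1 / (q : ℝ) ^ 2) * ((Nz (fun s => ∏ j, ∏ᶠ χ : DirichletCharacter ℂ q,
          L j χ.conductor χ.primitiveCharacter (s - 1 / 2)) T : ℕ) : ℝ) =
        ∑ j, ∑ q ∈ (Finset.Ioc X Y).filter (fun q => Nat.Coprime q N),
        (1 / (q : ℝ) ^ 2) * SS (fun q χ => (H370.NN (L j q χ) T (2 * T) : ℝ)) q := by
      rw [Finset.sum_comm]
      exact Finset.sum_congr rfl fun q hq => by rw [(key q hq).1, Finset.mul_sum]
    have k2 : ∑ j, ∑ q ∈ (Finset.Ioc X Y).filter (fun q => Nat.Coprime q N),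
        (1 / (q : ℝ) ^ 2) * SS (fun q χ => (H370.Ns (L j q χ) T (2 * T) : ℝ)) q ≤
        ∑ q ∈ (Finset.Ioc X Y).filter (fun q => Nat.Coprime q N),
        (1 / (q : ℝ) ^ 2) * ((N₀ (fun s => ∏ j, ∏ᶠ χ : DirichletCharacter ℂ q,
          L j χ.conductor χ.primitiveCharacter (s - 1 / 2)) T : ℕ) : ℝ) := by
      rw [Finset.sum_comm]
      refine Finset.sum_le_sum fun q hq => ?_
      rw [← Finset.mul_sum]
      exact mul_le_mul_of_nonneg_left (key q hq).2 (by positivity)
    rw [k1]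
    refine ⟨?_, le_trans ?_ k2⟩
    · calc (Fintype.card ι : ℝ) * T = ∑ _j : ι, T := by
            rw [Finset.sum_const, Finset.card_univ, nsmul_eq_mul]
        _ ≤ _ := Finset.sum_le_sum fun j _ => (hb j).1
    · rw [Finset.mul_sum]
      exact Finset.sum_le_sum fun j _ => (hb j).2

end Pool.Agent.Results.MP_7193be_nt.ModularCurves6725
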