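import Pool.Agent.W354.HW.Main

/-!
# The Hasse-Weil L-functions of the powers of an elliptic curve with complex multiplication

Let `E : y² = x³ - x` and `X = E^g`, projective and smooth over `ℤ[1/2]`.  For an odd prime `p` let
`α_p, β_p` be the roots of `T² - a_p T + p`, `a_p = p - #{(x, y) mod p : y² = x³ - x}`.  By the
Künneth formula `H^i(E^g) = Λ^i (H^1(E) ⊗ ℚ^g)`, and so
`P_i(X(p), T) = ∏_{a+b=i} (1 - α_p^a β_p^b T)^{C(g,a) C(g,b)}`,
and the Hasse-Weil L-function is `L(i; X, s) = ∏_{p ≠ 2} P_i(X(p), p^{-s})⁻¹`.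

We prove for all `g` and all odd `i`, `1 ≤ i ≤ 2g - 1`, that `L(i; X, s)` is entire and that,
without any hypothesis, at least 67.25 per cent of its zeros `s` with `i/2 < Re s < i/2 + 1`,
`T < Im s ≤ 2T`, counted with multiplicity, lie on the critical line `Re s = (i+1)/2`, as soon as
`T ≥ T₀` and `n^(1/2-η) ≤ T ≤ n^(1/2+η)`, where `n = min(i, 2g-i)` and `T₀`, `η > 0` are absolute.
(For `i` odd the inertia invariants at `2` vanish, so there is no factor at `2`.)  The variety and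
the degree are arbitrary; there is no average over a family of varieties.

Proof.  Gauss' formula for `a_p` and the theta series give
`L(i; X, s) = ∏_{l ≤ m} L(s - i/2, ψ^(2l+1))^{C(g,m-l) C(g,m+1+l)}`, `i = 2m+1`, with the Hecke
character `ψ` of `ℚ(i)` modulo `2+2i`.  The multiplicities form a decreasing sequence of width
`√n`.  For the L-functions `L(s, ψ^k)`, `k` in intervals of length about `T`, there is a trace
inequality for the zeros weighted by test functions of Montgomery-Taylor type (no hypothesis on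
zeros off the line), the explicit formula uniform in `k`, and a mean square over `k` and the height:
the points `(arg a, log |a|)` of the Gaussian primes `a` with `N(a) ≤ T^(2-ε)` are well spaced on the
cylinder modulo the units, which gives a two-dimensional large sieve without loss of a constant.
-/

open Complex

namespace Pool.Agent.Results.MP_7193be_nt.PowersCM6725

/-- `a_p`: the prime `p` minus the number of the pairs `(x, y)` modulo `p` with `y² = x³ - x` -/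
noncomputable def a (p : ℕ) : ℤ :=
  (p : ℤ) - (((Finset.range p ×ˢ Finset.range p).filter
    (fun xy : ℕ × ℕ => (p : ℤ) ∣ (xy.2 : ℤ) ^ 2 - ((xy.1 : ℤ) ^ 3 - (xy.1 : ℤ)))).card : ℤ)

/-- `α p`, `β p` are the roots of `T² - a_p T + p` for every prime `p ≠ 2` -/
def FrobeniusRoots (α β : ℕ → ℂ) : Prop :=
  ∀ p : ℕ, p.Prime → p ≠ 2 → α p + β p = (a p : ℂ) ∧ α p * β p = p

/-- `P_i(X(p), p^{-s})` for `X = E^g`: the product of `(1 - α^j β^(i-j) p^(-s))` over `0 ≤ j ≤ i`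
with the multiplicities `C(g, j) C(g, i-j)` -/
noncomputable def P (g i : ℕ) (α β : ℂ) (p : ℕ) (s : ℂ) : ℂ :=
  ∏ j ∈ Finset.range (i + 1),
    (1 - α ^ j * β ^ (i - j) * (p : ℂ) ^ (-s)) ^ (g.choose j * g.choose (i - j))

/-- `F` is the continuation of `L(i; E^g, s) = ∏_{p ≠ 2} P_i(X(p), p^{-s})⁻¹` to an entire
function -/
def IsHasseWeil (g i : ℕ) (F : ℂ → ℂ) : Prop :=
  Differentiable ℂ F ∧ ∀ α β : ℕ → ℂ, FrobeniusRoots α β → ∀ s : ℂ, 1 + (i : ℝ) / 2 < s.re →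
    HasProd (fun p : {p : ℕ // p.Prime ∧ p ≠ 2} => (P g i (α p) (β p) p s)⁻¹) (F s)

/-- the zeros of `F` with `i/2 < Re s < i/2 + 1` and `T₁ < Im s ≤ T₂` -/
def zeros (F : ℂ → ℂ) (i : ℕ) (T₁ T₂ : ℝ) : Set ℂ :=
  {s : ℂ | (i : ℝ) / 2 < s.re ∧ s.re < (i : ℝ) / 2 + 1 ∧ T₁ < s.im ∧ s.im ≤ T₂ ∧ F s = 0}

/-- the number of these zeros, counted with multiplicity -/
noncomputable def N (F : ℂ → ℂ) (i : ℕ) (T₁ T₂ : ℝ) : ℕ :=
  ∑ᶠ s ∈ zeros F i T₁ T₂, analyticOrderNatAt F s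

/-- the number of those of them with `Re s = (i+1)/2`, counted with multiplicity -/
noncomputable def N₀ (F : ℂ → ℂ) (i : ℕ) (T₁ T₂ : ℝ) : ℕ :=
  ∑ᶠ s ∈ {s : ℂ | s ∈ zeros F i T₁ T₂ ∧ s.re = ((i : ℝ) + 1) / 2}, analyticOrderNatAt F s

open Pool.Agent.W354.HW

lemma zeros_eq (F : ℂ → ℂ) (i : ℕ) (T₁ T₂ : ℝ) : zeros (fun s => F (s - (i : ℂ) / 2)) i T₁ T₂ =
    {s : ℂ | s ∈ {s | s - (i : ℂ) / 2 ∈ strip T₁ T₂} ∧ F (s - (i : ℂ) / 2) = 0} := by
  have h1 : ∀ s : ℂ, (s - (i : ℂ) / 2).re = s.re - (i : ℝ) / 2 := by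
    intro s
    rw [show ((i : ℂ) / 2) = (((i : ℝ) / 2 : ℝ) : ℂ) by push_cast; rfl, Complex.sub_re,
      Complex.ofReal_re]
  have h2 : ∀ s : ℂ, (s - (i : ℂ) / 2).im = s.im := by
    intro s
    rw [show ((i : ℂ) / 2) = (((i : ℝ) / 2 : ℝ) : ℂ) by push_cast; rfl, Complex.sub_im,
      Complex.ofReal_im, sub_zero]
  ext s
  simp only [zeros, strip, Set.mem_ofPred_eq, h1, h2]
  constructor
  · rintro ⟨a, b, c, d, e⟩
    exact ⟨⟨by linarith, by linarith, c, d⟩, e⟩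
  · rintro ⟨⟨a, b, c, d⟩, e⟩
    exact ⟨by linarith, by linarith, c, d, e⟩

lemma line_eq (F : ℂ → ℂ) (i : ℕ) (T₁ T₂ : ℝ) :
    {s : ℂ | s ∈ zeros (fun s => F (s - (i : ℂ) / 2)) i T₁ T₂ ∧ s.re = ((i : ℝ) + 1) / 2} =
    {s : ℂ | s ∈ {s | s - (i : ℂ) / 2 ∈ line T₁ T₂} ∧ F (s - (i : ℂ) / 2) = 0} := by
  have h1 : ∀ s : ℂ, (s - (i : ℂ) / 2).re = s.re - (i : ℝ) / 2 := by
    intro s
    rw [show ((i : ℂ) / 2) = (((i : ℝ) / 2 : ℝ) : ℂ) by push_cast; rfl, Complex.sub_re,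
      Complex.ofReal_re]
  have h2 : ∀ s : ℂ, (s - (i : ℂ) / 2).im = s.im := by
    intro s
    rw [show ((i : ℂ) / 2) = (((i : ℝ) / 2 : ℝ) : ℂ) by push_cast; rfl, Complex.sub_im,
      Complex.ofReal_im, sub_zero]
  ext s
  simp only [zeros, line, Set.mem_ofPred_eq, h1, h2]
  constructor
  · rintro ⟨⟨a, b, c, d, e⟩, f⟩
    exact ⟨⟨by linarith, c, d⟩, e⟩
  · rintro ⟨⟨a, c, d⟩, e⟩
    exact ⟨⟨by linarith, by linarith, c, d, e⟩, by linarith⟩

lemma N_eq (F : ℂ → ℂ) (i : ℕ) (T₁ T₂ : ℝ) :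
    N (fun s => F (s - (i : ℂ) / 2)) i T₁ T₂ = cnt F (strip T₁ T₂) := by
  rw [← cnt_shift F ((i : ℂ) / 2)]
  unfold N cnt H370.mult
  rw [zeros_eq]

lemma N₀_eq (F : ℂ → ℂ) (i : ℕ) (T₁ T₂ : ℝ) :
    N₀ (fun s => F (s - (i : ℂ) / 2)) i T₁ T₂ = cnt F (line T₁ T₂) := by
  rw [← cnt_shift F ((i : ℂ) / 2)]
  unfold N₀ cnt H370.mult
  rw [line_eq]

theorem result : ∃ (L : ℕ → ℕ → ℂ → ℂ) (T₀ η : ℝ), 0 < η ∧ ∀ g i : ℕ, Odd i → i < 2 * g →
    IsHasseWeil g i (L g i) ∧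
    ∀ T : ℝ, T₀ ≤ T → ((min i (2 * g - i) : ℕ) : ℝ) ^ (1 / 2 - η) ≤ T →
      T ≤ ((min i (2 * g - i) : ℕ) : ℝ) ^ (1 / 2 + η) →
      (zeros (L g i) i T (2 * T)).Finite ∧ 0 < N (L g i) i T (2 * T) ∧
        0.6725 * (N (L g i) i T (2 * T) : ℝ) ≤ (N₀ (L g i) i T (2 * T) : ℝ) := by
  obtain ⟨T0, η, hT0, hη, H⟩ := main_odd
  refine ⟨fun g i s => LL0 g (i / 2) (s - (i : ℂ) / 2), T0, η, hη, ?_⟩
  rintro g i ⟨m, rfl⟩ hg
  have hm : (2 * m + 1) / 2 = m := by omega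
  simp only [hm]
  refine ⟨⟨?_, fun α β hαβ s hs => LL0_prod g m α β hαβ s hs⟩, fun T hT h1 h2 => ?_⟩
  · exact (LL0_diff g m).comp (differentiable_id.sub_const _)
  · have hT1 : 1 ≤ T := hT0.trans hT
    obtain ⟨k1, k2⟩ := H g m T (by omega) hT h1 h2
    rw [N_eq (LL0 g m), N₀_eq (LL0 g m)]
    have e1 := LL0_NN g m T hT1
    have e2 := LL0_Ns g m T hT1
    refine ⟨?_, ?_, ?_⟩
    · rw [zeros_eq (LL0 g m)]
      have hfin := LL0_fin g m T hT1
      refine (hfin.preimage (f := fun s : ℂ => s - ((2 * m + 1 : ℕ) : ℂ) / 2)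
        ((sub_left_injective).injOn)).subset ?_
      rintro s ⟨hs1, hs2⟩
      exact ⟨hs1, hs2⟩
    · rw [e1]
      have : ((0 : ℕ) : ℝ) < ((∑ l ∈ Finset.range (m + 1),
          mu g m l * H370.NN (FE (2 * l + 1)) T (2 * T) : ℕ) : ℝ) := by
        push_cast
        exact k2
      exact_mod_cast this
    · rw [e1]
      have e3 : ((∑ l ∈ Finset.range (m + 1),
          mu g m l * H370.Ns (FE (2 * l + 1)) T (2 * T) : ℕ) : ℝ) ≤
          (cnt (LL0 g m) (line T (2 * T)) : ℝ) := by exact_mod_cast e2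
      refine le_trans ?_ e3
      push_cast
      exact k1

end Pool.Agent.Results.MP_7193be_nt.PowersCM6725
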