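import Pool.Agent.W355.UN.PowCM

/-!
# The de Bruijn-Newman constants of the Hasse-Weil L-functions of all powers of a CM elliptic curve

Let `E : y² = x³ - x` and `X = E^g`, projective and smooth over `ℤ[1/2]`, and `i` odd, `0 < i < 2g`.
For an odd prime `p` let `α_p, β_p` be the roots of `T² - a_p T + p`,
`a_p = p - #{(x, y) mod p : y² = x³ - x}`.  By the Künneth formula
`P_i(X(p), T) = ∏_{a+b=i} (1 - α_p^a β_p^b T)^{C(g,a) C(g,b)}`, and the Hasse-Weil L-function is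
`L(i; X, s) = ∏_{p ≠ 2} P_i(X(p), p^{-s})⁻¹` (for `i` odd the inertia invariants at `2` vanish, so there
is no factor at `2`).  The completed function is `Λ(s) = A^{s/2} Γ_i(s) L(i; X, s)` with
`Γ_i(s) = ∏_{p<q} Γ_ℂ(s - p)^{h^{p,q}}`, `h^{p,q} = C(g,p) C(g,q)`, up to the constant `A^{-i/4}`; it is
entire, real on the real axis, and `Λ(i + 1 - s) = ± Λ(s)` (Deuring, Hecke).

Let `Λ_t = e^{t D²} Λ` (`D = d/ds`) be the heat flow of `Λ`.  If all zeros of `Λ_t` are on the line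
`Re s = (i+1)/2`, the same is true for all larger `t`, and it is true for `t ≥ 1/8` (de Bruijn); the
generalized Riemann hypothesis for `Λ(i; X, s)` (part (d) of the problem for this `X` and `i`) says that
it is true for all `t > 0`.

The degree of `L(i; X, s)` is the Betti number `b_i = C(2g, i)`, which is unbounded.  We prove, without
any hypothesis, bounds which are uniform in `g` and `i`: there is ONE constant `C` such that for all `g`
and all odd `i`, all zeros of `Λ_t` are on the line for `t ≥ C / b_i`; so the de Bruijn-Newman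
constants tend to `0` when `g` tends to infinity, and the generalized Riemann hypothesis is equivalent
to the same statement for `0 < t < C / b_i`.  More precisely a zero `s` of `Λ_t` is on the line if
`t log 𝔠(Im s) ≥ C`, where `𝔠(y) = A ∏ (1 + |μ + i y|)` is the analytic conductor (the product over the
parameters `μ` of the gamma factors `Γ_ℝ`); and for every `η > 0` there is `K(η)`, which depends on `η`
only, such that `t log 𝔠(Im s) ≥ 1 + η` is sufficient if `log 𝔠(Im s) ≥ K(η) b_i`.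

Proof.  `L(i; X, s) = ∏_{l ≤ m} L(s - i/2, ψ^(2l+1))^{C(g,m-l) C(g,m+1+l)}`, `i = 2m+1`, with the Hecke
character `ψ` of `ℚ(i)` modulo `2+2i` (`Pool.Agent.W354.HW`, helper354).  `Λ_t(1/2 + x + i y)` is a sum of
two half-line integrals `h(x) ± conj h(-x)` (normalised), and `|h(x)| > |h(-x)|` for `x > 0` by the
saddle point method of helper169 (modules `Pool.Agent.W169.HF`, with helpers 12, 32, 45, 174, 186, 216,
327, 346, 363, 577, 578, 597, 613, 736, 762, 806, 930, 959), which we make uniform in the degree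
`d` (modules `Pool.Agent.W355.UN`): after the rescaling `s = 1/2 + i y + S u`, where the scale `S` is
chosen so that the saddle point is at distance `3 S / 2`, the logarithmic derivative of `Λ` at scale
one is `ℓ + O(d)` with `ℓ ≥ c d log S`, and the estimates are linear in the error term.
-/

set_option autoImplicit false

namespace Pool.Agent.Results.MP_7193be_nt.ZNewmanPowersCM

open Complex Polynomial
open scoped ComplexConjugate

/-- `a_p`: the prime `p` minus the number of the pairs `(x, y)` modulo `p` with `y² = x³ - x` -/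
noncomputable def a (p : ℕ) : ℤ :=
  (p : ℤ) - (((Finset.range p ×ˢ Finset.range p).filter
    (fun xy : ℕ × ℕ => (p : ℤ) ∣ (xy.2 : ℤ) ^ 2 - ((xy.1 : ℤ) ^ 3 - (xy.1 : ℤ)))).card : ℤ)

/-- `α p`, `β p` are the roots of `T² - a_p T + p` for every prime `p ≠ 2` -/
def FrobeniusRoots (α β : ℕ → ℂ) : Prop :=
  ∀ p : ℕ, p.Prime → p ≠ 2 → α p + β p = (a p : ℂ) ∧ α p * β p = p

/-- `P_i(X(p), p^{-s})` for `X = E^g`: the product of `(1 - α^j β^(i-j) p^(-s))` over `0 ≤ j ≤ i`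
with the multiplicities `C(g, j) C(g, i-j)` -/
noncomputable def P (g i : ℕ) (α β : ℂ) (p : ℕ) (s : ℂ) : ℂ :=
  ∏ j ∈ Finset.range (i + 1),
    (1 - α ^ j * β ^ (i - j) * (p : ℂ) ^ (-s)) ^ (g.choose j * g.choose (i - j))

/-- `L` is the continuation of `L(i; E^g, s) = ∏_{p ≠ 2} P_i(X(p), p^{-s})⁻¹` to an entire
function -/
def IsHasseWeil (g i : ℕ) (L : ℂ → ℂ) : Prop :=
  Differentiable ℂ L ∧ ∀ α β : ℕ → ℂ, FrobeniusRoots α β → ∀ s : ℂ, 1 + (i : ℝ) / 2 < s.re →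
    HasProd (fun p : {p : ℕ // p.Prime ∧ p ≠ 2} => (P g i (α p) (β p) p s)⁻¹) (L s)

/-- the conductor `A = 32^N`, `N = ∑_{p < q, p + q = i} h^{p,q}`, `h^{p,q} = C(g, p) C(g, q)` -/
noncomputable def A (g i : ℕ) : ℝ :=
  32 ^ (∑ p ∈ Finset.range ((i + 1) / 2), g.choose p * g.choose (i - p))

/-- the Gamma factor `Γ_i(s) = ∏_{p < q, p + q = i} Γ_ℂ(s - p)^{h^{p,q}}`, `h^{p,q} = C(g, p) C(g, q)`;
here `Γ_ℂ(s) = Γ_ℝ(s) Γ_ℝ(s + 1)` -/
noncomputable def gammaFactor (g i : ℕ) (s : ℂ) : ℂ :=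
  ∏ p ∈ Finset.range ((i + 1) / 2), Gammaℂ (s - p) ^ (g.choose p * g.choose (i - p))

/-- the analytic conductor at height `y`: `A ∏_{p<q} ((1 + |i/2 - p + √-1 y|)
(1 + |i/2 - p + 1 + √-1 y|))^{h^{p,q}}` -/
noncomputable def analyticConductor (g i : ℕ) (y : ℝ) : ℝ :=
  A g i * ∏ p ∈ Finset.range ((i + 1) / 2),
    ((1 + ‖(y : ℂ) * I + ((i : ℂ) / 2 - p)‖) * (1 + ‖(y : ℂ) * I + ((i : ℂ) / 2 - p + 1)‖)) ^
      (g.choose p * g.choose (i - p))

/-- `Λ` is entire and `Λ(s) = A^((s - i/2)/2) Γ_i(s) L(s)` for `Re s > (i - 1)/2` -/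
def IsCompleted (g i : ℕ) (L Λ : ℂ → ℂ) : Prop :=
  Differentiable ℂ Λ ∧ ∀ s : ℂ, ((i : ℝ) - 1) / 2 < s.re →
    Λ s = (A g i : ℂ) ^ ((s - (i : ℂ) / 2) / 2) * gammaFactor g i s * L s

/-- The heat flow `Λ_t = e^{t D²} Λ` (`D = d/ds`) as a Gaussian average:
`Λ_t(s) = π^(-1/2) ∫ exp (-v²) Λ(s + 2 √t v) dv`. -/
noncomputable def heat (t : ℝ) (Λ : ℂ → ℂ) (s : ℂ) : ℂ :=
  ((1 / Real.sqrt Real.pi : ℝ) : ℂ) *
    ∫ v : ℝ, ((Real.exp (-v ^ 2) : ℝ) : ℂ) * Λ (s + ((2 * Real.sqrt t * v : ℝ) : ℂ))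

/-- **The theorem.**  `(2 * g).choose i` is the Betti number `b_i` of `E^g`, the degree of the
L-function. -/
theorem result : ∃ (C : ℝ) (K : ℝ → ℝ), 0 < C ∧ ∀ g i : ℕ, Odd i → i < 2 * g →
    ∃ L Λ : ℂ → ℂ, IsHasseWeil g i L ∧ IsCompleted g i L Λ ∧
      (∀ s : ℂ, Λ (conj s) = conj (Λ s)) ∧
      (∃ r : ℕ, r ≤ 1 ∧ ∀ s : ℂ, Λ (i + 1 - s) = (-1) ^ r * Λ s) ∧
      (∀ t : ℝ, 0 < t → C ≤ t * (2 * g).choose i → ∀ s : ℂ, heat t Λ s = 0 →
        s.re = ((i : ℝ) + 1) / 2) ∧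
      ((∀ s : ℂ, Λ s = 0 → s.re = ((i : ℝ) + 1) / 2) ↔
        ∀ t : ℝ, 0 < t → t * (2 * g).choose i < C → ∀ s : ℂ, heat t Λ s = 0 →
          s.re = ((i : ℝ) + 1) / 2) ∧
      (∀ (t : ℝ) (s : ℂ), 0 < t → C ≤ t * Real.log (analyticConductor g i s.im) →
        heat t Λ s = 0 → s.re = ((i : ℝ) + 1) / 2) ∧
      (∀ η : ℝ, 0 < η → ∀ (t : ℝ) (s : ℂ), 0 < t →
        K η * (2 * g).choose i ≤ Real.log (analyticConductor g i s.im) →
        1 + η ≤ t * Real.log (analyticConductor g i s.im) → heat t Λ s = 0 →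
        s.re = ((i : ℝ) + 1) / 2) := by
  obtain ⟨C, K, hC, -, H⟩ := Pool.Agent.W355.UN.fin_all
  refine ⟨C, K, hC, fun g i hi hg => ?_⟩
  obtain ⟨m, rfl⟩ := hi
  obtain ⟨Λ, h1, h2, h3, h4, h5, h6, h7, h8⟩ := Pool.Agent.W355.UN.main_pow H hC g m (by omega)
  exact ⟨fun s => Pool.Agent.W355.HW.LL0 g m (s - ((2 * m + 1 : ℕ) : ℂ) / 2), Λ,
    ⟨(Pool.Agent.W355.HW.LL0_diff g m).comp (differentiable_id.sub_const _),
      fun α β hαβ s hs => Pool.Agent.W355.HW.LL0_prod g m α β hαβ s hs⟩, ⟨h1, h2⟩, h3, h4, h6, h7,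
    h5, h8⟩

end Pool.Agent.Results.MP_7193be_nt.ZNewmanPowersCM
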